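import Mathlib
import Pool.Agent.Run7.h572.Defs
import Pool.Agent.Run7.h572.Bridge

/-!
# MP_126465_gt, Q1: forms with a nowhere vanishing Poisson bracket

Let `ω` be a symplectic form on `ℝ²ⁿ`, standard at infinity.  Suppose that there are smooth functions
`f` and `g` on `ℝ²ⁿ` such that the Poisson bracket of `f` and `g` with respect to `ω` vanishes
nowhere and `g` agrees with a nonconstant affine function outside a compact set (there is no
condition on `f` at infinity).  Then `(ℝ²ⁿ, ω)` is symplectomorphic to `(ℝ²ⁿ, ω₀)`.

For instance, with `f = x₁` and `g = y₁` the condition on the bracket says that `ω` is nondegenerate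
on all affine subspaces `{x₁ = a, y₁ = b}` of codimension two.  The existence of `f` says that the
Hamiltonian flow of `g` has no orbit which is trapped (in backward time) in a compact set.

Proof.  The Hamiltonian vector field `X` of `g` is constant outside a compact set.  A modification of
`f` increases at least at unit speed along `X`, so that every orbit comes, in backward time, from a
region in which everything is standard.  The flow of `X` from there defines a diffeomorphism from
`ℝ²ⁿ` to itself which pulls back `ω` to `ω₀`.
-/

set_option autoImplicit false

open Pool.Agent.Run7.h572 Pool.Agent.Run7.h572.S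

namespace Pool.Agent.Results.MP_126465_gt.NonvanishingBracket

section general

variable {E : Type} [NormedAddCommGroup E] [NormedSpace ℝ E]

/-- `g` is equal to a nonconstant affine function outside a compact set. -/
def AffineAtInfinity (g : E → ℝ) : Prop :=
  ∃ (l : E →L[ℝ] ℝ) (c : ℝ) (K : Set E),
    l ≠ 0 ∧ IsCompact K ∧ ∀ x, x ∉ K → g x = l x + c

/-- The Poisson bracket of `f` and `g` with respect to the symplectic form `ω` vanishes nowhere: if
`v` is the value at `x` of the Hamiltonian vector field of `g`, that is, `ω_x(v, ·) = dg_x`, then
`df_x(v) ≠ 0`. -/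
def BracketNowhereZero (ω : TwoForm E) (f g : E → ℝ) : Prop :=
  ∀ x v : E, (∀ w, ω x ![v, w] = fderiv ℝ g x w) → fderiv ℝ f x v ≠ 0

end general

/-- A symplectic form on `ℝ²ⁿ`, standard at infinity, for which there are smooth functions `f`, `g`
with a nowhere vanishing Poisson bracket, `g` affine and nonconstant at infinity, is the pullback of
the standard form under a diffeomorphism. -/
theorem result (n : ℕ) (ω : TwoForm (Space n)) (hω : IsSymplectic ω)
    (hK : StandardAtInfinity std ω) (f g : Space n → ℝ) (hf : IsSmoothFun f)
    (hg : IsSmoothFun g) (hgl : AffineAtInfinity g) (hb : BracketNowhereZero ω f g) :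
    IsStandard std ω := by
  obtain ⟨K, hK, hout⟩ := hK
  obtain ⟨l, c, K', hl, hK', hgl⟩ := hgl
  obtain ⟨Φ, h1, h2, h3⟩ := bracket_std (isSymp_of hω.smooth hω.closed hω.nondegenerate)
    (hK.union hK')
    (fun x hx => out_of (hout x fun h => hx (Or.inl h))) hg hl
    (fun x hx => hgl x fun h => hx (Or.inr h)) hf (fun x v hv => hb x v fun w => by
      rw [← hv, tb_apply])
  exact concl h1 h2 h3

end Pool.Agent.Results.MP_126465_gt.NonvanishingBracket
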